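import Pool.Agent.Lib_MP_5dc1dd_co.Pattern

open Set
open Pool.Agent.LibMP5dc1dd

namespace Pool.Agent.Results.MP_5dc1dd_co.ParallelogramTwofold

/-- the closed bar with index `i`, in coordinates -/
def bar (i : Idx) : Set (ℝ × ℝ) :=
  Icc (ix i : ℝ) (ix i + bw (iv i)) ×ˢ Icc (iy i : ℝ) (iy i + bh (iv i))

/-- the half-open bar with index `i`, in coordinates -/
def hbar (i : Idx) : Set (ℝ × ℝ) :=
  Ico (ix i : ℝ) (ix i + bw (iv i)) ×ˢ Ico (iy i : ℝ) (iy i + bh (iv i))

theorem hbar_count (q : ℝ × ℝ) : {i | q ∈ hbar i}.encard = 2 := by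
  rw [← idx_count ⌊q.1⌋ ⌊q.2⌋]
  congr 1
  ext i
  simp only [hbar, Set.mem_prod, Set.mem_Ico, Set.mem_ofPred_eq, Int.le_floor]
  have e1 : q.1 < (ix i : ℝ) + bw (iv i) ↔ ⌊q.1⌋ < ix i + bw (iv i) := by
    rw [Int.floor_lt]; push_cast; rfl
  have e2 : q.2 < (iy i : ℝ) + bh (iv i) ↔ ⌊q.2⌋ < iy i + bh (iv i) := by
    rw [Int.floor_lt]; push_cast; rfl
  rw [e1, e2]
  tauto

theorem bar_closed (i : Idx) : IsClosed (bar i) := isClosed_Icc.prod isClosed_Icc

theorem bar_interior (i : Idx) : interior (bar i) =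
    Ioo (ix i : ℝ) (ix i + bw (iv i)) ×ˢ Ioo (iy i : ℝ) (iy i + bh (iv i)) := by
  rw [bar, interior_prod_eq, interior_Icc, interior_Icc]

theorem parallelogram_eq (a b : Plane) (hab : LinearIndependent ℝ ![a, b]) :
    parallelogram ((3 : ℝ) • a) b = coord a b hab '' (Icc (0 : ℝ) 3 ×ˢ Icc (0 : ℝ) 1) := by
  ext p
  constructor
  · rintro ⟨s, t, hs, hs', ht, ht', rfl⟩
    refine ⟨(3 * s, t), ⟨⟨by simpa using hs, by simp; linarith⟩, ⟨ht, ht'⟩⟩, ?_⟩
    rw [coord_apply]
    simp only [smul_smul, mul_comm]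
  · rintro ⟨⟨x, y⟩, ⟨⟨hx, hx'⟩, ⟨hy, hy'⟩⟩, rfl⟩
    simp only at hx hx' hy hy'
    refine ⟨x / 3, y, by linarith, by linarith, hy, hy', ?_⟩
    rw [coord_apply]
    simp only [smul_smul]
    congr 2
    ring

theorem isTile_parallelogram (a b : Plane) (hab : LinearIndependent ℝ ![a, b]) :
    IsTile (parallelogram ((3 : ℝ) • a) b) := by
  rw [parallelogram_eq a b hab]
  constructor
  · refine ⟨coord a b hab '' (({0, 3} : Set ℝ) ×ˢ ({0, 1} : Set ℝ)), Set.Finite.image _ (Set.toFinite _), ?_⟩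
    have h1 : Icc (0 : ℝ) 3 ×ˢ Icc (0 : ℝ) 1 =
        convexHull ℝ (({0, 3} : Set ℝ) ×ˢ ({0, 1} : Set ℝ)) := by
      rw [convexHull_prod, convexHull_pair, convexHull_pair, segment_eq_Icc (by norm_num),
        segment_eq_Icc (by norm_num)]
    rw [h1]
    exact LinearMap.image_convexHull (coord a b hab).toLinearEquiv.toLinearMap _
  · refine ⟨coord a b hab (1, 1 / 2), ?_⟩
    apply mem_interior_of_coords (coord a b hab).toHomeomorph
    rw [interior_prod_eq, interior_Icc, interior_Icc]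
    constructor <;> constructor <;> norm_num

theorem monohedral (a b : Plane) (hab : LinearIndependent ℝ ![a, b]) (hn : ‖a‖ = ‖b‖) :
    IsMonohedral (fun i : Idx => coord a b hab '' bar i) (parallelogram ((3 : ℝ) • a) b) := by
  intro i
  rw [parallelogram_eq a b hab]
  cases hv : iv i with
  | false =>
    refine ⟨IsometryEquiv.addLeft (coord a b hab ((ix i : ℝ), (iy i : ℝ))), ?_⟩
    rw [Set.image_image]
    ext p
    simp only [bar, hv, bw, bh, Set.mem_image, Set.mem_prod, Set.mem_Icc, IsometryEquiv.addLeft_apply]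
    constructor
    · rintro ⟨q, ⟨⟨h1, h2⟩, ⟨h3, h4⟩⟩, rfl⟩
      refine ⟨q - ((ix i : ℝ), (iy i : ℝ)), ⟨⟨?_, ?_⟩, ⟨?_, ?_⟩⟩, ?_⟩
      · simp; linarith
      · simp at h2 ⊢; linarith
      · simp; linarith
      · simp at h4 ⊢; linarith
      · rw [map_sub]; abel
    · rintro ⟨q, ⟨⟨h1, h2⟩, ⟨h3, h4⟩⟩, rfl⟩
      refine ⟨((ix i : ℝ), (iy i : ℝ)) + q, ⟨⟨?_, ?_⟩, ⟨?_, ?_⟩⟩, ?_⟩
      · simp; linarith
      · simp; linarith
      · simp; linarith
      · simp; linarith
      · rw [map_add]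
  | true =>
    obtain ⟨R, hR1, hR2⟩ := exists_swap a b hn
    have hR : ∀ q : ℝ × ℝ, R (coord a b hab q) = coord a b hab (q.2, q.1) := by
      intro q
      rw [coord_apply, coord_apply, map_add, map_smul, map_smul, hR1, hR2, add_comm]
    refine ⟨R.toIsometryEquiv.trans (IsometryEquiv.addLeft (coord a b hab ((ix i : ℝ), (iy i : ℝ)))), ?_⟩
    rw [Set.image_image]
    ext p
    simp only [bar, hv, bw, bh, Set.mem_image, Set.mem_prod, Set.mem_Icc, IsometryEquiv.addLeft_apply,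
      IsometryEquiv.trans_apply, LinearIsometryEquiv.coe_toIsometryEquiv, hR]
    constructor
    · rintro ⟨q, ⟨⟨h1, h2⟩, ⟨h3, h4⟩⟩, rfl⟩
      refine ⟨(q.2 - iy i, q.1 - ix i), ⟨⟨?_, ?_⟩, ⟨?_, ?_⟩⟩, ?_⟩
      · simp; linarith
      · simp at h4 ⊢; linarith
      · simp; linarith
      · simp at h2 ⊢; linarith
      · rw [← map_add]
        congr 1
        ext <;> simp
    · rintro ⟨q, ⟨⟨h1, h2⟩, ⟨h3, h4⟩⟩, rfl⟩
      refine ⟨((ix i : ℝ), (iy i : ℝ)) + (q.2, q.1), ⟨⟨?_, ?_⟩, ⟨?_, ?_⟩⟩, ?_⟩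
      · simp; linarith
      · simp; linarith
      · simp; linarith
      · simp; linarith
      · rw [map_add]

theorem pat_inj : ∀ k k', px k = px k' → py k = py k' → pv k = pv k' → k = k' := by
  decide

theorem bw_pos (o : Bool) : (0 : ℝ) < bw o := by
  cases o <;> simp [bw]

theorem bh_pos (o : Bool) : (0 : ℝ) < bh o := by
  cases o <;> simp [bh]

theorem bar_le {i j : Idx} (h : bar i ⊆ bar j) : (ix j : ℝ) ≤ ix i ∧ (iy j : ℝ) ≤ iy i ∧
    (ix i : ℝ) + bw (iv i) ≤ ix j + bw (iv j) := by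
  have h1 : ((ix i : ℝ), (iy i : ℝ)) ∈ bar j := h
    ⟨⟨le_refl _, by have := bw_pos (iv i); simp only; linarith⟩,
      ⟨le_refl _, by have := bh_pos (iv i); simp only; linarith⟩⟩
  have h2 : ((ix i : ℝ) + bw (iv i), (iy i : ℝ)) ∈ bar j := h
    ⟨⟨by have := bw_pos (iv i); simp only; linarith, le_refl _⟩,
      ⟨le_refl _, by have := bh_pos (iv i); simp only; linarith⟩⟩
  exact ⟨h1.1.1, h1.2.1, h2.1.2⟩

theorem bar_injective : Function.Injective bar := by
  intro i j h
  obtain ⟨h1, h2, h3⟩ := bar_le h.subset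
  obtain ⟨h1', h2', h3'⟩ := bar_le h.symm.subset
  have e1 : ix i = ix j := by exact_mod_cast le_antisymm h1' h1
  have e2 : iy i = iy j := by exact_mod_cast le_antisymm h2' h2
  have e3 : bw (iv i) = bw (iv j) := by
    have : (ix i : ℝ) = ix j := by exact_mod_cast e1
    have h4 : (bw (iv i) : ℝ) = bw (iv j) := by linarith
    exact_mod_cast h4
  have e4 : iv i = iv j := by
    revert e3
    cases iv i <;> cases iv j <;> simp [bw]
  obtain ⟨⟨a, b⟩, k⟩ := i
  obtain ⟨⟨a', b'⟩, k'⟩ := j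
  have hb := pat_bounds k
  have hb' := pat_bounds k'
  have hw : ∀ o, 0 < bw o ∧ 0 < bh o := by decide
  have w1 := hw (pv k)
  have w2 := hw (pv k')
  simp only [ix, iy, iv] at e1 e2 e4
  have ha : a = a' := by omega
  have hb2 : b = b' := by omega
  subst ha
  subst hb2
  have hk : k = k' := pat_inj k k' (by omega) (by omega) e4
  rw [hk]

theorem bar_generic (q : ℝ × ℝ) (h1 : ∀ n : ℤ, q.1 ≠ n) (h2 : ∀ n : ℤ, q.2 ≠ n) (i : Idx) :
    q ∈ bar i → q ∈ interior (bar i) := by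
  rw [bar_interior]
  rintro ⟨⟨h3, h4⟩, ⟨h5, h6⟩⟩
  refine ⟨⟨lt_of_le_of_ne h3 ?_, lt_of_le_of_ne h4 ?_⟩, ⟨lt_of_le_of_ne h5 ?_, lt_of_le_of_ne h6 ?_⟩⟩
  · exact fun h => h1 _ h.symm
  · exact_mod_cast h1 (ix i + bw (iv i))
  · exact fun h => h2 _ h.symm
  · exact_mod_cast h2 (iy i + bh (iv i))

theorem cyp_generic (k : Fin 5) : (∀ n : ℤ, (cyp k).1 ≠ n) ∧ (∀ n : ℤ, (cyp k).2 ≠ n) := by
  have key : ∀ m : ℤ, ¬ (11 ∣ m) → ∀ n : ℤ, (m : ℝ) / 11 ≠ n := by
    intro m hm n h
    apply hm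
    refine ⟨n, ?_⟩
    have : (m : ℝ) = 11 * n := by
      rw [← h]; ring
    exact_mod_cast this
  have k1 := key 1 (by norm_num)
  have k12 := key 12 (by norm_num)
  have k23 := key 23 (by norm_num)
  have k34 := key 34 (by norm_num)
  push_cast at k1 k12 k23 k34
  fin_cases k
  · exact ⟨k1, k12⟩
  · exact ⟨k23, k12⟩
  · exact ⟨k23, k34⟩
  · exact ⟨k1, k34⟩
  · exact ⟨k1, k23⟩

theorem cyp_mem (k : Fin 5) : cyp k ∈ bar (cyc k) ∧ cyp k ∈ bar (cyc (k + 1)) := by
  fin_cases k <;>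
  · constructor <;>
    · simp [cyp, cyc, bar, ix, iy, iv, px, py, pv, pat, bw, bh]
      norm_num

/-- Every parallelogram whose side lengths have ratio `3 : 1` is the prototile of an irreducible
monohedral multiple tiling of density `2` (without repeated tiles). -/
theorem result (u v : Plane) (huv : LinearIndependent ℝ ![u, v]) (hn : ‖u‖ = 3 * ‖v‖) :
    ∃ (ι : Type) (T : ι → Set Plane), Function.Injective T ∧ IsMonohedral T (parallelogram u v) ∧
      IsMultipleTiling T 2 ∧ ¬ IsReducible T 2 := by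
  obtain ⟨a, rfl⟩ : ∃ a : Plane, (3 : ℝ) • a = u := ⟨(1 / 3 : ℝ) • u, by rw [smul_smul]; norm_num⟩
  have hab : LinearIndependent ℝ ![a, v] := by
    rw [LinearIndependent.pair_iff] at huv ⊢
    intro s t hst
    have := huv (s / 3) t (by rw [smul_smul, div_mul_cancel₀ _ (by norm_num : (3 : ℝ) ≠ 0)]; exact hst)
    exact ⟨by linarith [this.1], this.2⟩
  have hn' : ‖a‖ = ‖v‖ := by
    rw [norm_smul] at hn
    simp at hn
    exact hn
  have hmono := monohedral a v hab hn'
  have htiling : IsMultipleTiling (fun i : Idx => coord a v hab '' bar i) 2 := by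
    refine ⟨inferInstance, by norm_num, ?_, ?_⟩
    · intro i
      obtain ⟨e, he⟩ := hmono i
      have h := isTile_image e (isTile_parallelogram a v hab)
      rw [← he] at h
      exact h
    · apply density_of_coords (coord a v hab).toHomeomorph _ bar hbar 2 (fun i => rfl) bar_closed
      · intro i
        rw [bar_interior]
        exact Set.prod_mono Set.Ioo_subset_Ico_self Set.Ioo_subset_Ico_self
      · intro i
        exact Set.prod_mono Set.Ico_subset_Icc_self Set.Ico_subset_Icc_self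
      · exact hbar_count
  refine ⟨Idx, fun i => coord a v hab '' bar i, ?_, hmono, htiling, ?_⟩
  · intro i j hij
    exact bar_injective ((coord a v hab).injective.image_injective hij)
  · apply not_reducible_of_five_cycle _ htiling cyc (fun k => coord a v hab (cyp k))
    · intro k j
      exact not_mem_frontier_of_coords (coord a v hab).toHomeomorph (bar j) (bar_closed j) (cyp k)
        (bar_generic _ (cyp_generic k).1 (cyp_generic k).2 j)
    · intro k
      exact mem_interior_of_coords (coord a v hab).toHomeomorph _ _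
        (bar_generic _ (cyp_generic k).1 (cyp_generic k).2 _ (cyp_mem k).1)
    · intro k
      exact mem_interior_of_coords (coord a v hab).toHomeomorph _ _
        (bar_generic _ (cyp_generic k).1 (cyp_generic k).2 _ (cyp_mem k).2)
    · decide

end Pool.Agent.Results.MP_5dc1dd_co.ParallelogramTwofold
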