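import Pool.Agent.Lib_MP_5dc1dd_co.Pattern

open Set
open Pool.Agent.LibMP5dc1dd

namespace Pool.Agent.Results.MP_5dc1dd_co.TriangleTwofold

/-- `3` times the affine function which is `1` on the falling diagonal of the bar `i`. -/
def dg (i : Idx) (q : ℝ × ℝ) : ℝ := bh (iv i) * (q.1 - ix i) + bw (iv i) * (q.2 - iy i)

/-- the half-open bar with index `i`, in coordinates -/
def hbar (i : Idx) : Set (ℝ × ℝ) :=
  Ico (ix i : ℝ) (ix i + bw (iv i)) ×ˢ Ico (iy i : ℝ) (iy i + bh (iv i))

theorem hbar_count (q : ℝ × ℝ) : {i | q ∈ hbar i}.encard = 2 := by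
  rw [← idx_count ⌊q.1⌋ ⌊q.2⌋]
  congr 1
  ext i
  simp only [hbar, Set.mem_prod, Set.mem_Ico, Set.mem_ofPred_eq, Int.le_floor]
  have e1 : q.1 < (ix i : ℝ) + bw (iv i) ↔ ⌊q.1⌋ < ix i + bw (iv i) := by
    rw [Int.floor_lt]; push_cast; rfl
  have e2 : q.2 < (iy i : ℝ) + bh (iv i) ↔ ⌊q.2⌋ < iy i + bh (iv i) := by
    rw [Int.floor_lt]; push_cast; rfl
  rw [e1, e2]
  tauto

/-- the closed lower left (`false`) and upper right (`true`) triangles of the bar `i` -/
def tri (i : Idx × Bool) : Set (ℝ × ℝ) :=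
  match i.2 with
  | false => {q | (ix i.1 : ℝ) ≤ q.1 ∧ (iy i.1 : ℝ) ≤ q.2 ∧ dg i.1 q ≤ 3}
  | true => {q | q.1 ≤ (ix i.1 : ℝ) + bw (iv i.1) ∧ q.2 ≤ (iy i.1 : ℝ) + bh (iv i.1) ∧ 3 ≤ dg i.1 q}

/-- the half-open triangles -/
def htri (i : Idx × Bool) : Set (ℝ × ℝ) :=
  match i.2 with
  | false => {q | q ∈ hbar i.1 ∧ dg i.1 q ≤ 3}
  | true => {q | q ∈ hbar i.1 ∧ 3 < dg i.1 q}

theorem htri_count (q : ℝ × ℝ) : {i | q ∈ htri i}.encard = 2 := by
  classical
  rw [← hbar_count q]
  have : {i | q ∈ htri i} = (fun i : Idx => (i, decide (3 < dg i q))) '' {i | q ∈ hbar i} := by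
    ext ⟨i, s⟩
    simp only [Set.mem_ofPred_eq, Set.mem_image, Prod.mk.injEq]
    constructor
    · intro h
      refine ⟨i, ?_, rfl, ?_⟩
      · cases s
        · exact h.1
        · exact h.1
      · cases s
        · have := h.2
          simp only [decide_eq_false_iff_not, not_lt]
          exact this
        · have := h.2
          simp only [decide_eq_true_eq]
          exact this
    · rintro ⟨j, hj, rfl, hs⟩
      cases s
      · simp only [decide_eq_false_iff_not, not_lt] at hs
        exact ⟨hj, hs⟩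
      · simp only [decide_eq_true_eq] at hs
        exact ⟨hj, hs⟩
  rw [this, Function.Injective.encard_image]
  intro a b hab
  exact (Prod.mk.injEq _ _ _ _ ▸ hab).1

theorem continuous_dg (i : Idx) : Continuous (dg i) := by
  unfold dg
  fun_prop

theorem tri_closed (i : Idx × Bool) : IsClosed (tri i) := by
  obtain ⟨i, s⟩ := i
  cases s
  · exact (isClosed_le continuous_const continuous_fst).inter
      ((isClosed_le continuous_const continuous_snd).inter
        (isClosed_le (continuous_dg i) continuous_const))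
  · exact (isClosed_le continuous_fst continuous_const).inter
      ((isClosed_le continuous_snd continuous_const).inter
        (isClosed_le continuous_const (continuous_dg i)))

theorem exists_pos {S : Set (ℝ × ℝ)} {q : ℝ × ℝ} (h : q ∈ interior S) (d : ℝ × ℝ) :
    ∃ t : ℝ, 0 < t ∧ q + t • d ∈ S := by
  have hS : S ∈ nhds q := mem_interior_iff_mem_nhds.1 h
  have hc : Continuous (fun t : ℝ => q + t • d) := by fun_prop
  have hev : ∀ᶠ t in nhds (0 : ℝ), q + t • d ∈ S := by
    have := hc.tendsto 0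
    simp only [zero_smul, add_zero] at this
    exact this hS
  have hev2 : ∀ᶠ t in nhdsWithin (0 : ℝ) (Set.Ioi 0), q + t • d ∈ S := hev.filter_mono nhdsWithin_le_nhds
  obtain ⟨t, ht1, ht2⟩ := (hev2.and self_mem_nhdsWithin).exists
  exact ⟨t, ht2, ht1⟩

theorem bw_pos (o : Bool) : (0 : ℝ) < bw o := by
  cases o <;> simp [bw]

theorem bh_pos (o : Bool) : (0 : ℝ) < bh o := by
  cases o <;> simp [bh]

theorem bwbh (o : Bool) : (bw o : ℝ) * bh o = 3 := by
  cases o <;> simp [bh, bw]

theorem interior_tri (i : Idx × Bool) : interior (tri i) ⊆ htri i := by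
  obtain ⟨i, s⟩ := i
  have hw := bw_pos (iv i)
  have hh := bh_pos (iv i)
  have hwh := bwbh (iv i)
  cases s
  · intro q hq
    obtain ⟨t, ht, h1, h2, h3⟩ := exists_pos hq (1, 1)
    obtain ⟨h4, h5, h6⟩ := interior_subset hq
    simp only [dg, Prod.fst_add, Prod.snd_add, Prod.smul_fst, Prod.smul_snd, smul_eq_mul,
      mul_one] at h1 h2 h3 h4 h5 h6
    have h7 : (0 : ℝ) < bh (iv i) * t := by positivity
    have h8 : (0 : ℝ) < bw (iv i) * t := by positivity
    have h9 : (0 : ℝ) ≤ bh (iv i) * (q.1 - ix i) := mul_nonneg hh.le (by linarith)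
    have h10 : (0 : ℝ) ≤ bw (iv i) * (q.2 - iy i) := mul_nonneg hw.le (by linarith)
    refine ⟨⟨⟨h4, ?_⟩, ⟨h5, ?_⟩⟩, h6⟩
    · by_contra hcon
      push Not at hcon
      have : (bh (iv i) : ℝ) * bw (iv i) ≤ bh (iv i) * (q.1 - ix i) :=
        mul_le_mul_of_nonneg_left (by linarith) hh.le
      nlinarith
    · by_contra hcon
      push Not at hcon
      have : (bw (iv i) : ℝ) * bh (iv i) ≤ bw (iv i) * (q.2 - iy i) :=
        mul_le_mul_of_nonneg_left (by linarith) hw.le
      nlinarith
  · intro q hq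
    obtain ⟨t, ht, h1, h2, h3⟩ := exists_pos hq (1, 1)
    obtain ⟨t', ht', h1', h2', h3'⟩ := exists_pos hq (-1, -1)
    simp only [dg, Prod.fst_add, Prod.snd_add, Prod.smul_fst, Prod.smul_snd, smul_eq_mul,
      mul_one, mul_neg] at h1 h2 h3 h1' h2' h3'
    have h7 : (0 : ℝ) < bh (iv i) * t' := by positivity
    have h8 : (0 : ℝ) < bw (iv i) * t' := by positivity
    refine ⟨⟨⟨?_, ?_⟩, ⟨?_, ?_⟩⟩, ?_⟩
    · by_contra hcon
      push Not at hcon
      have : (bh (iv i) : ℝ) * (q.1 - ix i) ≤ 0 :=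
        mul_nonpos_of_nonneg_of_nonpos hh.le (by linarith)
      have : (bw (iv i) : ℝ) * (q.2 - iy i) ≤ bw (iv i) * bh (iv i) :=
        mul_le_mul_of_nonneg_left (by linarith) hw.le
      nlinarith
    · simp only; linarith
    · by_contra hcon
      push Not at hcon
      have : (bw (iv i) : ℝ) * (q.2 - iy i) ≤ 0 :=
        mul_nonpos_of_nonneg_of_nonpos hw.le (by linarith)
      have : (bh (iv i) : ℝ) * (q.1 - ix i) ≤ bh (iv i) * bw (iv i) :=
        mul_le_mul_of_nonneg_left (by linarith) hh.le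
      nlinarith
    · simp only; linarith
    · simp only [dg]
      nlinarith

theorem htri_subset (i : Idx × Bool) : htri i ⊆ tri i := by
  obtain ⟨i, s⟩ := i
  cases s
  · rintro q ⟨⟨⟨h1, h2⟩, ⟨h3, h4⟩⟩, h5⟩
    exact ⟨h1, h3, h5⟩
  · rintro q ⟨⟨⟨h1, h2⟩, ⟨h3, h4⟩⟩, h5⟩
    exact ⟨h2.le, h4.le, h5.le⟩

/-- generic points -/
def Generic (q : ℝ × ℝ) : Prop :=
  (∀ n : ℤ, q.1 ≠ n) ∧ (∀ n : ℤ, q.2 ≠ n) ∧ (∀ n : ℤ, q.1 + 3 * q.2 ≠ n) ∧
    (∀ n : ℤ, 3 * q.1 + q.2 ≠ n)

theorem dg_ne (q : ℝ × ℝ) (hq : Generic q) (i : Idx) : dg i q ≠ 3 := by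
  obtain ⟨h1, h2, h3, h4⟩ := hq
  unfold dg
  cases iv i
  · simp only [bw, bh]
    intro h
    apply h3 (ix i + 3 * iy i + 3)
    push_cast
    simp at h
    linarith
  · simp only [bw, bh]
    intro h
    apply h4 (3 * ix i + iy i + 3)
    push_cast
    simp at h
    linarith

theorem tri_generic (q : ℝ × ℝ) (hq : Generic q) (i : Idx × Bool) :
    q ∈ tri i → q ∈ interior (tri i) := by
  have h7 := dg_ne q hq i.1
  obtain ⟨h1, h2, h3, h4⟩ := hq
  obtain ⟨i, s⟩ := i
  cases s
  · rintro ⟨h4, h5, h6⟩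
    apply mem_interior.2
    refine ⟨{q | (ix i : ℝ) < q.1} ∩ ({q | (iy i : ℝ) < q.2} ∩ {q | dg i q < 3}), ?_, ?_, ?_⟩
    · rintro p ⟨a, b, c⟩
      exact ⟨le_of_lt a, le_of_lt b, le_of_lt c⟩
    · exact (isOpen_lt continuous_const continuous_fst).inter
        ((isOpen_lt continuous_const continuous_snd).inter
          (isOpen_lt (continuous_dg i) continuous_const))
    · exact ⟨lt_of_le_of_ne h4 (fun h => h1 _ h.symm), lt_of_le_of_ne h5 (fun h => h2 _ h.symm),
        lt_of_le_of_ne h6 h7⟩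
  · rintro ⟨h4, h5, h6⟩
    apply mem_interior.2
    refine ⟨{q | q.1 < (ix i : ℝ) + bw (iv i)} ∩ ({q | q.2 < (iy i : ℝ) + bh (iv i)} ∩
      {q | 3 < dg i q}), ?_, ?_, ?_⟩
    · rintro p ⟨a, b, c⟩
      exact ⟨le_of_lt a, le_of_lt b, le_of_lt c⟩
    · exact (isOpen_lt continuous_fst continuous_const).inter
        ((isOpen_lt continuous_snd continuous_const).inter
          (isOpen_lt continuous_const (continuous_dg i)))
    · refine ⟨lt_of_le_of_ne h4 ?_, lt_of_le_of_ne h5 ?_, lt_of_le_of_ne h6 (Ne.symm h7)⟩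
      · exact_mod_cast h1 (ix i + bw (iv i))
      · exact_mod_cast h2 (iy i + bh (iv i))

theorem cyp_generic (k : Fin 5) : Generic (cyp k) := by
  have key : ∀ m : ℤ, ¬ (11 ∣ m) → ∀ x : ℝ, x = (m : ℝ) / 11 → ∀ n : ℤ, x ≠ n := by
    intro m hm x hx n h
    apply hm
    refine ⟨n, ?_⟩
    have : (m : ℝ) = 11 * n := by
      rw [← h, hx]; ring
    exact_mod_cast this
  fin_cases k
  · exact ⟨key 1 (by norm_num) _ (by norm_num [cyp]), key 12 (by norm_num) _ (by norm_num [cyp]),
      key 37 (by norm_num) _ (by norm_num [cyp]), key 15 (by norm_num) _ (by norm_num [cyp])⟩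
  · exact ⟨key 23 (by norm_num) _ (by norm_num [cyp]), key 12 (by norm_num) _ (by norm_num [cyp]),
      key 59 (by norm_num) _ (by norm_num [cyp]), key 81 (by norm_num) _ (by norm_num [cyp])⟩
  · exact ⟨key 23 (by norm_num) _ (by norm_num [cyp]), key 34 (by norm_num) _ (by norm_num [cyp]),
      key 125 (by norm_num) _ (by norm_num [cyp]), key 103 (by norm_num) _ (by norm_num [cyp])⟩
  · exact ⟨key 1 (by norm_num) _ (by norm_num [cyp]), key 34 (by norm_num) _ (by norm_num [cyp]),
      key 103 (by norm_num) _ (by norm_num [cyp]), key 37 (by norm_num) _ (by norm_num [cyp])⟩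
  · exact ⟨key 1 (by norm_num) _ (by norm_num [cyp]), key 23 (by norm_num) _ (by norm_num [cyp]),
      key 70 (by norm_num) _ (by norm_num [cyp]), key 26 (by norm_num) _ (by norm_num [cyp])⟩

/-- the cycle of five lower left triangles, consecutive ones overlapping -/
def cyt (k : Fin 5) : Idx × Bool := (cyc k, false)

theorem cyp_mem (k : Fin 5) : cyp k ∈ tri (cyt k) ∧ cyp k ∈ tri (cyt (k + 1)) := by
  fin_cases k <;>
  · constructor <;>
    · simp [cyp, cyt, cyc, tri, dg, ix, iy, iv, px, py, pv, pat, bw, bh]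
      norm_num

theorem triangle_eq (a b : Plane) (hab : LinearIndependent ℝ ![a, b]) :
    triangle ((3 : ℝ) • a) b =
      coord a b hab '' {q : ℝ × ℝ | 0 ≤ q.1 ∧ 0 ≤ q.2 ∧ q.1 + 3 * q.2 ≤ 3} := by
  ext p
  constructor
  · rintro ⟨s, t, hs, ht, hst, rfl⟩
    refine ⟨(3 * s, t), ⟨by simpa using hs, ht, by simp only; linarith⟩, ?_⟩
    rw [coord_apply]
    simp only [smul_smul, mul_comm]
  · rintro ⟨⟨x, y⟩, ⟨hx, hy, hxy⟩, rfl⟩
    simp only at hx hy hxy
    refine ⟨x / 3, y, by linarith, hy, by linarith, ?_⟩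
    rw [coord_apply]
    simp only [smul_smul]
    congr 2
    ring

theorem triangle_eq_hull (u v : Plane) : triangle u v = convexHull ℝ {0, u, v} := by
  apply Set.Subset.antisymm
  · rintro p ⟨s, t, hs, ht, hst, rfl⟩
    have hc := convex_convexHull ℝ ({0, u, v} : Set Plane)
    have h0 : (0 : Plane) ∈ convexHull ℝ ({0, u, v} : Set Plane) :=
      subset_convexHull ℝ _ (by simp)
    have hu : u ∈ convexHull ℝ ({0, u, v} : Set Plane) := subset_convexHull ℝ _ (by simp)
    have hv : v ∈ convexHull ℝ ({0, u, v} : Set Plane) := subset_convexHull ℝ _ (by simp)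
    rcases eq_or_lt_of_le (add_nonneg hs ht) with h | h
    · have hs0 : s = 0 := by linarith
      have ht0 : t = 0 := by linarith
      rw [hs0, ht0]
      simpa using h0
    · have hw : (s / (s + t)) • u + (t / (s + t)) • v ∈ convexHull ℝ ({0, u, v} : Set Plane) :=
        hc hu hv (by positivity) (by positivity) (by field_simp)
      have := hc h0 hw (sub_nonneg.2 hst) h.le (by ring)
      rw [smul_zero, zero_add, smul_add, smul_smul, smul_smul, mul_div_cancel₀ _ h.ne',
        mul_div_cancel₀ _ h.ne'] at this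
      exact this
  · apply convexHull_min
    · intro p hp
      rcases hp with rfl | rfl | rfl
      · exact ⟨0, 0, le_refl _, le_refl _, by norm_num, by simp⟩
      · exact ⟨1, 0, by norm_num, le_refl _, by norm_num, by simp⟩
      · exact ⟨0, 1, le_refl _, by norm_num, by norm_num, by simp⟩
    · rintro p ⟨s, t, hs, ht, hst, rfl⟩ p' ⟨s', t', hs', ht', hst', rfl⟩ α β hα hβ hαβ
      refine ⟨α * s + β * s', α * t + β * t', by positivity, by positivity, ?_, ?_⟩
      · have h1 : α * (s + t) ≤ α * 1 := mul_le_mul_of_nonneg_left hst hα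
        have h2 : β * (s' + t') ≤ β * 1 := mul_le_mul_of_nonneg_left hst' hβ
        nlinarith
      · simp only [smul_add, smul_smul, add_smul]
        abel

theorem isTile_triangle (a b : Plane) (hab : LinearIndependent ℝ ![a, b]) :
    IsTile (triangle ((3 : ℝ) • a) b) := by
  constructor
  · exact ⟨{0, (3 : ℝ) • a, b}, Set.toFinite _, triangle_eq_hull _ _⟩
  · rw [triangle_eq a b hab]
    refine ⟨coord a b hab (1 / 2, 1 / 2), ?_⟩
    apply mem_interior_of_coords (coord a b hab).toHomeomorph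
    apply mem_interior.2
    refine ⟨{q | (0 : ℝ) < q.1} ∩ ({q | (0 : ℝ) < q.2} ∩ {q | q.1 + 3 * q.2 < 3}), ?_, ?_, ?_⟩
    · rintro p ⟨a, b, c⟩
      exact ⟨le_of_lt a, le_of_lt b, le_of_lt c⟩
    · exact (isOpen_lt continuous_const continuous_fst).inter
        ((isOpen_lt continuous_const continuous_snd).inter
          (isOpen_lt (by fun_prop) continuous_const))
    · refine ⟨?_, ?_, ?_⟩
      · show (0 : ℝ) < 1 / 2
        norm_num
      · show (0 : ℝ) < 1 / 2
        norm_num
      · show (1 : ℝ) / 2 + 3 * (1 / 2) < 3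
        norm_num

theorem monohedral (a b : Plane) (hab : LinearIndependent ℝ ![a, b]) (hn : ‖a‖ = ‖b‖) :
    IsMonohedral (fun i : Idx × Bool => coord a b hab '' tri i) (triangle ((3 : ℝ) • a) b) := by
  rintro ⟨i, s⟩
  rw [triangle_eq a b hab]
  cases hv : iv i with
  | false =>
    cases s with
    | false =>
      refine ⟨IsometryEquiv.addLeft (coord a b hab ((ix i : ℝ), (iy i : ℝ))), ?_⟩
      rw [Set.image_image]
      ext p
      simp only [tri, dg, hv, bw, bh, Set.mem_image, Set.mem_ofPred_eq, IsometryEquiv.addLeft_apply]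
      constructor
      · rintro ⟨q, ⟨h1, h2, h3⟩, rfl⟩
        refine ⟨q - ((ix i : ℝ), (iy i : ℝ)), ⟨?_, ?_, ?_⟩, ?_⟩
        · simp; linarith
        · simp; linarith
        · simp at h3 ⊢; linarith
        · rw [map_sub]; abel
      · rintro ⟨q, ⟨h1, h2, h3⟩, rfl⟩
        refine ⟨((ix i : ℝ), (iy i : ℝ)) + q, ⟨?_, ?_, ?_⟩, ?_⟩
        · simp; linarith
        · simp; linarith
        · simp; linarith
        · rw [map_add]
    | true =>
      refine ⟨IsometryEquiv.subLeft (coord a b hab ((ix i : ℝ) + 3, (iy i : ℝ) + 1)), ?_⟩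
      rw [Set.image_image]
      ext p
      simp only [tri, dg, hv, bw, bh, Set.mem_image, Set.mem_ofPred_eq, IsometryEquiv.subLeft_apply]
      constructor
      · rintro ⟨q, ⟨h1, h2, h3⟩, rfl⟩
        refine ⟨((ix i : ℝ) + 3, (iy i : ℝ) + 1) - q, ⟨?_, ?_, ?_⟩, ?_⟩
        · simp at h1 ⊢; linarith
        · simp at h2 ⊢; linarith
        · simp at h3 ⊢; linarith
        · rw [map_sub]; abel
      · rintro ⟨q, ⟨h1, h2, h3⟩, rfl⟩
        refine ⟨((ix i : ℝ) + 3, (iy i : ℝ) + 1) - q, ⟨?_, ?_, ?_⟩, ?_⟩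
        · simp; linarith
        · simp; linarith
        · simp; linarith
        · rw [map_sub]
  | true =>
    obtain ⟨R, hR1, hR2⟩ := exists_swap a b hn
    have hR : ∀ q : ℝ × ℝ, R (coord a b hab q) = coord a b hab (q.2, q.1) := by
      intro q
      rw [coord_apply, coord_apply, map_add, map_smul, map_smul, hR1, hR2, add_comm]
    cases s with
    | false =>
      refine ⟨R.toIsometryEquiv.trans
        (IsometryEquiv.addLeft (coord a b hab ((ix i : ℝ), (iy i : ℝ)))), ?_⟩
      rw [Set.image_image]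
      ext p
      simp only [tri, dg, hv, bw, bh, Set.mem_image, Set.mem_ofPred_eq, IsometryEquiv.addLeft_apply,
        IsometryEquiv.trans_apply, LinearIsometryEquiv.coe_toIsometryEquiv, hR]
      constructor
      · rintro ⟨q, ⟨h1, h2, h3⟩, rfl⟩
        refine ⟨(q.2 - iy i, q.1 - ix i), ⟨?_, ?_, ?_⟩, ?_⟩
        · simp; linarith
        · simp; linarith
        · simp at h3 ⊢; linarith
        · rw [← map_add]
          congr 1
          ext <;> simp
      · rintro ⟨q, ⟨h1, h2, h3⟩, rfl⟩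
        refine ⟨((ix i : ℝ), (iy i : ℝ)) + (q.2, q.1), ⟨?_, ?_, ?_⟩, ?_⟩
        · simp; linarith
        · simp; linarith
        · simp; linarith
        · rw [map_add]
    | true =>
      refine ⟨R.toIsometryEquiv.trans
        (IsometryEquiv.subLeft (coord a b hab ((ix i : ℝ) + 1, (iy i : ℝ) + 3))), ?_⟩
      rw [Set.image_image]
      ext p
      simp only [tri, dg, hv, bw, bh, Set.mem_image, Set.mem_ofPred_eq, IsometryEquiv.subLeft_apply,
        IsometryEquiv.trans_apply, LinearIsometryEquiv.coe_toIsometryEquiv, hR]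
      constructor
      · rintro ⟨q, ⟨h1, h2, h3⟩, rfl⟩
        refine ⟨((iy i : ℝ) + 3 - q.2, (ix i : ℝ) + 1 - q.1), ⟨?_, ?_, ?_⟩, ?_⟩
        · simp at h2 ⊢; linarith
        · simp at h1 ⊢; linarith
        · simp at h3 ⊢; linarith
        · rw [← map_sub]
          congr 1
          ext <;> simp
      · rintro ⟨q, ⟨h1, h2, h3⟩, rfl⟩
        refine ⟨((ix i : ℝ) + 1, (iy i : ℝ) + 3) - (q.2, q.1), ⟨?_, ?_, ?_⟩, ?_⟩
        · simp; linarith
        · simp; linarith
        · simp; linarith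
        · rw [map_sub]

theorem pat_inj : ∀ k k', px k = px k' → py k = py k' → pv k = pv k' → k = k' := by
  decide

theorem idx_inj {i j : Idx} (e1 : ix i = ix j) (e2 : iy i = iy j) (e4 : iv i = iv j) : i = j := by
  obtain ⟨⟨a, b⟩, k⟩ := i
  obtain ⟨⟨a', b'⟩, k'⟩ := j
  have hb := pat_bounds k
  have hb' := pat_bounds k'
  have hw : ∀ o, 0 < bw o ∧ 0 < bh o := by decide
  have w1 := hw (pv k)
  have w2 := hw (pv k')
  simp only [ix, iy, iv] at e1 e2 e4
  have ha : a = a' := by omega
  have hb2 : b = b' := by omega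
  subst ha
  subst hb2
  have hk : k = k' := pat_inj k k' (by omega) (by omega) e4
  rw [hk]

theorem mem_tri_false (i : Idx) (X Y : ℤ) : ((X : ℝ), (Y : ℝ)) ∈ tri (i, false) ↔
    ix i ≤ X ∧ iy i ≤ Y ∧ bh (iv i) * (X - ix i) + bw (iv i) * (Y - iy i) ≤ 3 := by
  simp only [tri, dg, Set.mem_ofPred_eq]
  norm_cast

theorem mem_tri_true (i : Idx) (X Y : ℤ) : ((X : ℝ), (Y : ℝ)) ∈ tri (i, true) ↔
    X ≤ ix i + bw (iv i) ∧ Y ≤ iy i + bh (iv i) ∧
      3 ≤ bh (iv i) * (X - ix i) + bw (iv i) * (Y - iy i) := by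
  simp only [tri, dg, Set.mem_ofPred_eq]
  norm_cast

theorem tri_injective : Function.Injective tri := by
  rintro ⟨i, s⟩ ⟨j, s'⟩ h
  have hmem : ∀ X Y : ℤ, ((X : ℝ), (Y : ℝ)) ∈ tri (i, s) ↔ ((X : ℝ), (Y : ℝ)) ∈ tri (j, s') := by
    intro X Y; rw [h]
  cases s <;> cases s'
  · simp only [mem_tri_false] at hmem
    have h1 := hmem (ix i) (iy i)
    have h2 := hmem (ix j) (iy j)
    have h3 := hmem (ix i + bw (iv i)) (iy i)
    have h4 := hmem (ix j + bw (iv j)) (iy j)
    have h5 := hmem (ix i) (iy i + bh (iv i))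
    cases hi : iv i <;> cases hj : iv j <;> simp only [hi, hj, bw, bh] at h1 h2 h3 h4 h5 <;>
      simp at h1 h2 h3 h4 h5
    · have := idx_inj (i := i) (j := j) (by omega) (by omega) (by rw [hi, hj])
      rw [this]
    · omega
    · omega
    · have := idx_inj (i := i) (j := j) (by omega) (by omega) (by rw [hi, hj])
      rw [this]
  · exfalso
    simp only [mem_tri_false, mem_tri_true] at hmem
    have h1 := hmem (ix i) (iy i)
    have h2 := hmem (ix i + bw (iv i)) (iy i)
    have h3 := hmem (ix i) (iy i + bh (iv i))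
    have h4 := hmem (ix j + bw (iv j)) (iy j + bh (iv j))
    have h5 := hmem (ix j) (iy j + bh (iv j))
    have h6 := hmem (ix j + bw (iv j)) (iy j)
    cases hi : iv i <;> cases hj : iv j <;> simp only [hi, hj, bw, bh] at h1 h2 h3 h4 h5 h6 <;>
      simp at h1 h2 h3 h4 h5 h6 <;> omega
  · exfalso
    simp only [mem_tri_false, mem_tri_true] at hmem
    have h1 := hmem (ix j) (iy j)
    have h2 := hmem (ix j + bw (iv j)) (iy j)
    have h3 := hmem (ix j) (iy j + bh (iv j))
    have h4 := hmem (ix i + bw (iv i)) (iy i + bh (iv i))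
    have h5 := hmem (ix i) (iy i + bh (iv i))
    have h6 := hmem (ix i + bw (iv i)) (iy i)
    cases hi : iv i <;> cases hj : iv j <;> simp only [hi, hj, bw, bh] at h1 h2 h3 h4 h5 h6 <;>
      simp at h1 h2 h3 h4 h5 h6 <;> omega
  · simp only [mem_tri_true] at hmem
    have h1 := hmem (ix i + bw (iv i)) (iy i + bh (iv i))
    have h2 := hmem (ix j + bw (iv j)) (iy j + bh (iv j))
    have h3 := hmem (ix i) (iy i + bh (iv i))
    have h4 := hmem (ix j) (iy j + bh (iv j))
    have h5 := hmem (ix i + bw (iv i)) (iy i)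
    cases hi : iv i <;> cases hj : iv j <;> simp only [hi, hj, bw, bh] at h1 h2 h3 h4 h5 <;>
      simp at h1 h2 h3 h4 h5
    · have := idx_inj (i := i) (j := j) (by omega) (by omega) (by rw [hi, hj])
      rw [this]
    · omega
    · omega
    · have := idx_inj (i := i) (j := j) (by omega) (by omega) (by rw [hi, hj])
      rw [this]

/-- Every triangle having two sides whose lengths have ratio `3 : 1` is the prototile of an
irreducible monohedral multiple tiling of density `2` (without repeated tiles). -/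
theorem result (u v : Plane) (huv : LinearIndependent ℝ ![u, v]) (hn : ‖u‖ = 3 * ‖v‖) :
    ∃ (ι : Type) (T : ι → Set Plane), Function.Injective T ∧ IsMonohedral T (triangle u v) ∧
      IsMultipleTiling T 2 ∧ ¬ IsReducible T 2 := by
  obtain ⟨a, rfl⟩ : ∃ a : Plane, (3 : ℝ) • a = u := ⟨(1 / 3 : ℝ) • u, by rw [smul_smul]; norm_num⟩
  have hab : LinearIndependent ℝ ![a, v] := by
    rw [LinearIndependent.pair_iff] at huv ⊢
    intro s t hst
    have := huv (s / 3) t (by rw [smul_smul, div_mul_cancel₀ _ (by norm_num : (3 : ℝ) ≠ 0)]; exact hst)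
    exact ⟨by linarith [this.1], this.2⟩
  have hn' : ‖a‖ = ‖v‖ := by
    rw [norm_smul] at hn
    simp at hn
    exact hn
  have hmono := monohedral a v hab hn'
  have htiling : IsMultipleTiling (fun i : Idx × Bool => coord a v hab '' tri i) 2 := by
    refine ⟨inferInstance, by norm_num, ?_, ?_⟩
    · intro i
      obtain ⟨e, he⟩ := hmono i
      have h := isTile_image e (isTile_triangle a v hab)
      rw [← he] at h
      exact h
    · exact density_of_coords (coord a v hab).toHomeomorph _ tri htri 2 (fun i => rfl) tri_closed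
        interior_tri htri_subset htri_count
  refine ⟨Idx × Bool, fun i => coord a v hab '' tri i, ?_, hmono, htiling, ?_⟩
  · intro i j hij
    exact tri_injective ((coord a v hab).injective.image_injective hij)
  · apply not_reducible_of_five_cycle _ htiling cyt (fun k => coord a v hab (cyp k))
    · intro k j
      exact not_mem_frontier_of_coords (coord a v hab).toHomeomorph (tri j) (tri_closed j) (cyp k)
        (tri_generic _ (cyp_generic k) j)
    · intro k
      exact mem_interior_of_coords (coord a v hab).toHomeomorph _ _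
        (tri_generic _ (cyp_generic k) _ (cyp_mem k).1)
    · intro k
      exact mem_interior_of_coords (coord a v hab).toHomeomorph _ _
        (tri_generic _ (cyp_generic k) _ (cyp_mem k).2)
    · decide

end Pool.Agent.Results.MP_5dc1dd_co.TriangleTwofold
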